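import Mathlib

/-! Matrix exponentials of nonnegative matrices. -/

open Finset Matrix

namespace Pool.Agent.V11328.ML

variable {n : Type*} [Fintype n] [DecidableEq n]

lemma exp_entry (A : Matrix n n ℝ) (x y : n) :
    HasSum (fun k : ℕ => ((k.factorial : ℝ)⁻¹) * (A ^ k) x y) (NormedSpace.exp A x y) := by
  let _ : SeminormedRing (Matrix n n ℝ) := Matrix.linftyOpSemiNormedRing
  let _ : NormedRing (Matrix n n ℝ) := Matrix.linftyOpNormedRing
  let _ : NormedAlgebra ℝ (Matrix n n ℝ) := Matrix.linftyOpNormedAlgebra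
  have h := NormedSpace.exp_series_hasSum_exp' (𝕂 := ℝ) A
  have h1 := Pi.hasSum.1 h x
  have h2 := Pi.hasSum.1 h1 y
  have h3 : HasSum (fun k : ℕ => (((k.factorial : ℝ)⁻¹) • A ^ k) x y) (NormedSpace.exp A x y) := h2
  exact h3

lemma exp_shift (t : ℝ) (Q : Matrix n n ℝ) :
    NormedSpace.exp (t • (Q - 1)) = Real.exp (-t) • NormedSpace.exp (t • Q) := by
  have h1 : t • (Q - 1) = t • Q + (-t) • (1 : Matrix n n ℝ) := by
    rw [smul_sub, neg_smul, sub_eq_add_neg]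
  have h2 : NormedSpace.exp ((-t) • (1 : Matrix n n ℝ)) = Real.exp (-t) • (1 : Matrix n n ℝ) := by
    ext x y
    have h3 := exp_entry ((-t) • (1 : Matrix n n ℝ)) x y
    have h4 : HasSum (fun k : ℕ => ((k.factorial : ℝ)⁻¹) * (-t) ^ k) (Real.exp (-t)) := by
      have := NormedSpace.exp_series_hasSum_exp' (𝕂 := ℝ) (-t : ℝ)
      rw [← Real.exp_eq_exp_ℝ] at this
      simpa using this
    have h5 := h4.mul_right ((1 : Matrix n n ℝ) x y)
    have h6 : (fun k : ℕ => ((k.factorial : ℝ)⁻¹) * (((-t) • (1 : Matrix n n ℝ)) ^ k) x y) =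
        fun k : ℕ => ((k.factorial : ℝ)⁻¹) * (-t) ^ k * (1 : Matrix n n ℝ) x y := by
      funext k
      rw [smul_pow, one_pow, Matrix.smul_apply, smul_eq_mul, mul_assoc]
    rw [h6] at h3
    rw [h3.unique h5, Matrix.smul_apply, smul_eq_mul]
  rw [h1, Matrix.exp_add_of_commute, h2]
  · rw [Matrix.mul_smul, Matrix.mul_one]
  · exact (Commute.one_right _).smul_right _

lemma pow_nonneg_entry {Q : Matrix n n ℝ} (hQ : ∀ x y, 0 ≤ Q x y) (k : ℕ) : ∀ x y,
    0 ≤ (Q ^ k) x y := by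
  induction k with
  | zero =>
    intro x y
    rw [pow_zero, Matrix.one_apply]
    split_ifs <;> norm_num
  | succ k ih =>
    intro x y
    rw [pow_succ, Matrix.mul_apply]
    exact Finset.sum_nonneg fun z _ => mul_nonneg (ih x z) (hQ z y)

lemma heat_nonneg {Q : Matrix n n ℝ} (hQ : ∀ x y, 0 ≤ Q x y) {t : ℝ} (ht : 0 ≤ t) (x y : n) :
    0 ≤ NormedSpace.exp (t • (Q - 1)) x y := by
  rw [exp_shift, Matrix.smul_apply, smul_eq_mul]
  refine mul_nonneg (Real.exp_pos _).le ((exp_entry (t • Q) x y).nonneg fun k => ?_)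
  refine mul_nonneg (by positivity) ?_
  rw [smul_pow, Matrix.smul_apply, smul_eq_mul]
  exact mul_nonneg (pow_nonneg ht _) (pow_nonneg_entry hQ k x y)

lemma pow_le {Q : Matrix n n ℝ} (hQ : ∀ x y, 0 ≤ Q x y) {l : ℝ} (hl : 0 ≤ 1 - l) {w : n → ℝ}
    (hw : ∀ x, (Q *ᵥ w) x ≤ (1 - l) * w x) (k : ℕ) : ∀ x,
    ((Q ^ k) *ᵥ w) x ≤ (1 - l) ^ k * w x := by
  induction k with
  | zero => intro x; simp
  | succ k ih =>
    intro x
    rw [pow_succ', ← Matrix.mulVec_mulVec]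
    have h1 : (Q *ᵥ ((Q ^ k) *ᵥ w)) x ≤ (Q *ᵥ fun y => (1 - l) ^ k * w y) x := by
      simp only [Matrix.mulVec, dotProduct]
      exact Finset.sum_le_sum fun y _ => mul_le_mul_of_nonneg_left (ih y) (hQ x y)
    refine h1.trans ?_
    have h2 : (Q *ᵥ fun y => (1 - l) ^ k * w y) x = (1 - l) ^ k * (Q *ᵥ w) x := by
      simp only [Matrix.mulVec, dotProduct, Finset.mul_sum]
      exact Finset.sum_congr rfl fun y _ => by ring
    rw [h2, pow_succ, mul_assoc]
    exact mul_le_mul_of_nonneg_left (hw x) (pow_nonneg hl _)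

lemma heat_le {Q : Matrix n n ℝ} (hQ : ∀ x y, 0 ≤ Q x y) {l : ℝ} (hl : 0 ≤ 1 - l) {w : n → ℝ}
    (hw : ∀ x, (Q *ᵥ w) x ≤ (1 - l) * w x) {t : ℝ} (ht : 0 ≤ t) (x : n) :
    (NormedSpace.exp (t • (Q - 1)) *ᵥ w) x ≤ Real.exp (-(l * t)) * w x := by
  have h1 : HasSum (fun k : ℕ => ((k.factorial : ℝ)⁻¹) * t ^ k * ((Q ^ k) *ᵥ w) x)
      ((NormedSpace.exp (t • Q) *ᵥ w) x) := by
    simp only [Matrix.mulVec, dotProduct, Finset.mul_sum]
    refine hasSum_sum fun y _ => ?_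
    have := (exp_entry (t • Q) x y).mul_right (w y)
    have e : (fun k : ℕ => ((k.factorial : ℝ)⁻¹) * ((t • Q) ^ k) x y * w y) =
        fun k : ℕ => ((k.factorial : ℝ)⁻¹) * t ^ k * ((Q ^ k) x y * w y) := by
      funext k
      rw [smul_pow, Matrix.smul_apply, smul_eq_mul]
      ring
    rw [e] at this
    exact this
  have h2 : HasSum (fun k : ℕ => ((k.factorial : ℝ)⁻¹) * t ^ k * ((1 - l) ^ k * w x))
      (Real.exp (t * (1 - l)) * w x) := by
    have h4 : HasSum (fun k : ℕ => ((k.factorial : ℝ)⁻¹) * (t * (1 - l)) ^ k)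
        (Real.exp (t * (1 - l))) := by
      have := NormedSpace.exp_series_hasSum_exp' (𝕂 := ℝ) (t * (1 - l) : ℝ)
      rw [← Real.exp_eq_exp_ℝ] at this
      simpa using this
    have h5 := h4.mul_right (w x)
    have e : (fun k : ℕ => ((k.factorial : ℝ)⁻¹) * (t * (1 - l)) ^ k * w x) =
        fun k : ℕ => ((k.factorial : ℝ)⁻¹) * t ^ k * ((1 - l) ^ k * w x) := by
      funext k
      rw [mul_pow]
      ring
    rw [e] at h5
    exact h5
  have h3 : (NormedSpace.exp (t • Q) *ᵥ w) x ≤ Real.exp (t * (1 - l)) * w x := by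
    refine hasSum_le (fun k => ?_) h1 h2
    exact mul_le_mul_of_nonneg_left (pow_le hQ hl hw k x) (by positivity)
  have h6 : (NormedSpace.exp (t • (Q - 1)) *ᵥ w) x =
      Real.exp (-t) * (NormedSpace.exp (t • Q) *ᵥ w) x := by
    rw [exp_shift, Matrix.smul_mulVec, Pi.smul_apply, smul_eq_mul]
  rw [h6]
  refine (mul_le_mul_of_nonneg_left h3 (Real.exp_pos _).le).trans (le_of_eq ?_)
  rw [← mul_assoc, ← Real.exp_add]
  congr 2
  ring

lemma heat_one {Q : Matrix n n ℝ} (hQ : ∀ x y, 0 ≤ Q x y) (h1 : ∀ x, ∑ y, Q x y = 1)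
    {t : ℝ} (ht : 0 ≤ t) (x : n) : ∑ y, NormedSpace.exp (t • (Q - 1)) x y = 1 := by
  have a : (NormedSpace.exp (t • (Q - 1)) *ᵥ (fun _ => (1 : ℝ))) x ≤
      Real.exp (-(0 * t)) * 1 := by
    refine heat_le hQ (l := 0) (by norm_num) (fun y => ?_) ht x
    simp [Matrix.mulVec, dotProduct, h1]
  have b : (NormedSpace.exp (t • (Q - 1)) *ᵥ (fun _ => (-1 : ℝ))) x ≤
      Real.exp (-(0 * t)) * (-1) := by
    refine heat_le hQ (l := 0) (by norm_num) (fun y => ?_) ht x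
    simp [Matrix.mulVec, dotProduct, h1]
  simp only [Matrix.mulVec, dotProduct, mul_one, mul_neg, zero_mul, neg_zero, Real.exp_zero,
    Finset.sum_neg_distrib] at a b
  linarith

end Pool.Agent.V11328.ML
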